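import Pool.Agent.Q73.NF.Pow3

/-!
# Kimura-finiteness of a dg category from one of its symmetric or exterior powers

`C` is a `ℚ`-linear, idempotent complete, rigid symmetric monoidal category with `End(𝟙) = ℚ`
(`UnitQ`) and with a symmetric monoidal additive functor `R` to finite dimensional super vector
spaces over a field `K` (`SuperRealisation`). The example of the problem: the category
`NChow(k)_ℚ` of noncommutative Chow motives of all smooth proper dg categories over `k`, with
periodic cyclic homology in characteristic zero, and topological periodic cyclic homology with `p`
inverted over a perfect field of characteristic `p`.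

`IsPowerOf η M P n`: `P` is the `n`-th symmetric power (`η = 1`) or the `n`-th exterior power
(`η = -1`) of `M`. `IsMixed R M`: the realisation of `M` is neither even nor odd.

Theorem. Let `n ≥ 1` and let `P` be the `n`-th symmetric or exterior power of an arbitrary object `M`.
(1) If all endomorphisms of `P` with zero realisation are nilpotent then all endomorphisms of `M` with
    zero realisation are nilpotent.
(2) Let `P` be Kimura-finite and `M` mixed. Then `M` is the direct sum of an object with even and of
    an object with odd realisation. The even one (if `P` is an exterior power), respectively the odd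
    one (if `P` is a symmetric power), is Kimura-finite, and `M` is Kimura-finite if the realisation
    of this part has dimension `≥ n - 1`.
(3) If `n = 2`, `P` is Kimura-finite and `M` is mixed then `M` is Kimura-finite.

Steps of the proof. (1) If `f` has zero realisation then so has the `n`-th tensor power of `f` on
`P`, so some `g = f ^ k` has tensor power zero on `P`; all traces of powers of `g` vanish, so the
contraction of all factors but one is a nonzero multiple of `g ^ n`. (2) The sign conjecture holds
for `M` (starting theorem `schur_iff`), so by (1) `M = A ⊕ B` with `A`, `B` pure; `P` contains the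
tensor product of `A` and of the `(n - 1)`-st power of `B`, whose realisation is not zero, and
Kimura-finiteness descends along tensor products (`Pool.Agent.Q263.KT`); for `B` the `(n - 1)`-st
power of `A` is needed, whose trace is a product of `n - 1` factors `dim A - i`.
-/

set_option autoImplicit false

open CategoryTheory Limits MonoidalCategory

namespace Pool.Agent.Results.MP_6e5bed_ag.ExteriorPowers

open Pool.Agent.Y112.SR Pool.Agent.Y112.KD Pool.Agent.Q263.KT Pool.Agent.Q73.NF

universe v u w

/-- Nilpotence and Kimura-finiteness from one symmetric or exterior power. -/
theorem result {C : Type u} [Category.{v} C] [Preadditive C] [Linear ℚ C] [MonoidalCategory C]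
    [MonoidalPreadditive C] [MonoidalLinear ℚ C] [SymmetricCategory C] [RightRigidCategory C]
    [IsIdempotentComplete C] (hU : UnitQ C) {K : Type w} [Field K] (R : SuperRealisation C K)
    (M P : C) (η : ℚ) (hη : η = 1 ∨ η = -1) (n : ℕ) (hn : 1 ≤ n) (hP : IsPowerOf η M P n) :
    (NilKernel R P → NilKernel R M) ∧
    (IsKimura P → IsMixed R M → ∃ A B : C, DirectSum M A B ∧
      R.par A = (-η : K) • 𝟙 _ ∧ R.par B = (η : K) • 𝟙 _ ∧ IsKimura A ∧
      (n ≤ Module.finrank K (R.H.obj A) + 1 → IsKimura M)) ∧
    (n = 2 → IsKimura P → IsMixed R M → IsKimura M) := by
  obtain ⟨m, rfl⟩ := Nat.exists_eq_add_of_le' hn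
  have hη2 : η * η = 1 := by rcases hη with h | h <;> rw [h] <;> norm_num
  refine ⟨fun h => nilKernel_of_power hU hη2 hP h, fun hK hM => ?_, fun hm hK hM => ?_⟩
  · obtain ⟨A, B, h1, h2, h3, -, h5, h6⟩ := power_mixed hU hη hP hK hM
    exact ⟨A, B, h1, h2, h3, h5, fun h => h6 (by omega)⟩
  · obtain ⟨A, B, -, -, -, h4, -, h6⟩ := power_mixed hU hη hP hK hM
    apply h6
    have h7 := finrank_ne_zero R h4
    omega

end Pool.Agent.Results.MP_6e5bed_ag.ExteriorPowers
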