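import Pool.Agent.Q263.NCK.Final

/-!
# Kimura-finiteness of the noncommutative motives of geometric origin

`𝒱` is a class of smooth projective geometrically irreducible varieties over a field `k`, closed under
products (for instance all of them), `C` the Chow groups with rational coefficients (in the form of
their formal properties, `IsChowProj`), and the rings `A(X)` are not zero.

The noncommutative Chow motives of the dg categories `perf(X)` are described by correspondences of
arbitrary degree: `Hom(U(X), U(Y)) = K_0(X × Y)_ℚ` is identified with `A(X × Y) = CH^*(X × Y)_ℚ` by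
the Chern character multiplied by the square root of the Todd class, and the composition becomes the
composition of correspondences. `HomF C X Y` are the morphisms `⊕ U(X i) → ⊕ U(Y j)` (matrices),
`compF` their composition, and the noncommutative motives of geometric origin are the direct summands
`(⊕ U(Y i), p)`, `p` an idempotent; for instance `U(𝒜)` for the admissible subcategories `𝒜` of
`perf(Y)`. `IsNCKimuraFinite C Y p` says that `(⊕ U(Y i), p)` is Kimura-finite: `p = e + f` with
orthogonal idempotents `e`, `f` of arbitrary degree such that some exterior power of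
`(⊕ U(Y i), e)` and some symmetric power of `(⊕ U(Y i), f)` are zero; `IsNCKimura C X` says this for
`U(X)`. `IsKimuraFinite C (ratFam C) X` says that the Chow motive `h(X)` is Kimura-finite (with a
projector of degree zero).

Theorem.
(1) `U(X)` is Kimura-finite if and only if the Chow motive `h(X)` is.
(2) `U(X)` is Kimura-finite if and only if `h(X)` is Kimura-finite modulo each prime adequate
    equivalence relation.
(3) If the `U(Y i)` are Kimura-finite then all direct summands of `⊕ U(Y i)` are, and a variety `X`
    such that `U(X)` is a direct summand of `⊕ U(Y i)` has a Kimura-finite Chow motive.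
(4) If `U(X) = ⊕ U(Y i)`, for instance if `perf(X)` has a semi-orthogonal decomposition with the
    pieces `perf(Y i)`, or if `X` and `Y` are derived equivalent, then `h(X)` is Kimura-finite if and
    only if all the `h(Y i)` are.
(5) The noncommutative motives of geometric origin are all Kimura-finite if and only if the Chow
    motives `h(X)` are.

Steps of the proof of (1): let `e` be the projector of arbitrary degree onto the even part, and `e_0`
its component of degree zero. The grading gives automorphisms `φ_t` of the ring of correspondences of
arbitrary degree (multiplication by `t^i` in degree `i`), and `φ_t(e)` has the same properties as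
`e`. The compositions of a morphism from an even to an odd motive with one in the other direction
have trace zero, so `e - φ_t(e)` is numerically trivial, hence so is `e - e_0`. Numerically trivial
correspondences of arbitrary degree are nilpotent (theorems of Cayley and Hamilton, and of Nagata
and Higman), so `e_0` can be corrected to an idempotent of degree zero, conjugate to `e` by a
correspondence of arbitrary degree. Its exterior powers, and the symmetric powers of its complement,
vanish like those of `e`.
-/

open CategoryTheory AlgebraicGeometry

set_option autoImplicit false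

universe u v

namespace Pool.Agent.Results.MP_6e5bed_ag.GeometricOrigin

open Pool.Agent.H914 Pool.Agent.H914.VarClass Pool.Agent.W492.BB Pool.Agent.W550.Corr
  Pool.Agent.TH133 Pool.Agent.TH829.Prime Pool.Agent.TH829.Kim Pool.Agent.Q263.NCK

/-- Kimura-finiteness of the noncommutative motives of geometric origin and of Chow motives. -/
theorem result {k : Type u} [Field k] {𝒱 : VarClass k} (C : TheoryData.{u, v, 0} 𝒱 ℚ)
    [IsChowProj C] (hne : ∀ X : 𝒱.Obj, (1 : C.A X) ≠ 0) :
    (∀ X : 𝒱.Obj, IsNCKimura C X ↔ IsKimuraFinite C (ratFam C) X) ∧
    (∀ X : 𝒱.Obj, IsNCKimura C X ↔ ∀ P : Family C, IsPrime C P → IsKimuraFinite C P X) ∧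
    (∀ (I : Type) [Fintype I] [DecidableEq I] (Y : I → 𝒱.Obj), (∀ i, IsNCKimura C (Y i)) →
      (∀ p : HomF C Y Y, compF C p p = p → IsNCKimuraFinite C Y p) ∧
      ∀ (X : 𝒱.Obj) (a : ∀ i, C.A (X.prod (Y i))) (b : ∀ i, C.A ((Y i).prod X)),
        ∑ i, C.comp (a i) (b i) = dg C X → IsKimuraFinite C (ratFam C) X) ∧
    (∀ (I : Type) [Fintype I] [DecidableEq I] (Y : I → 𝒱.Obj) (X : 𝒱.Obj)
      (a : ∀ i, C.A (X.prod (Y i))) (b : ∀ i, C.A ((Y i).prod X)),
      ∑ i, C.comp (a i) (b i) = dg C X → (∀ i, C.comp (b i) (a i) = dg C (Y i)) →
      (IsKimuraFinite C (ratFam C) X ↔ ∀ i, IsKimuraFinite C (ratFam C) (Y i))) ∧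
    ((∀ (I : Type) [Fintype I] [DecidableEq I] (Y : I → 𝒱.Obj) (p : HomF C Y Y),
      compF C p p = p → IsNCKimuraFinite C Y p) ↔
      ∀ X : 𝒱.Obj, IsKimuraFinite C (ratFam C) X) := by
  refine ⟨fun X => isNCKimura_iff_isKimuraFinite hne X, fun X => ?_, ?_, ?_, ?_, ?_⟩
  · rw [isNCKimura_iff_isKimuraFinite hne X]
    exact kimura_iff hne X
  · intro I _ _ Y hY
    have hY' : ∀ i, IsKimuraFinite C (ratFam C) (Y i) := fun i =>
      (isNCKimura_iff_isKimuraFinite hne (Y i)).1 (hY i)
    exact ⟨fun p hp => summand hne hY' hp, fun X a b hab => of_summand hne hY' a b hab⟩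
  · intro I _ _ Y X a b hab hba
    refine ⟨fun hX i => ?_, fun hY => of_summand hne hY a b hab⟩
    refine of_summand (I := Unit) (Y := fun _ => X) hne (fun _ => hX) (fun _ => b i)
      (fun _ => a i) ?_
    rw [Fintype.sum_unique]
    exact hba i
  · intro h X
    exact (isNCKimura_iff_isKimuraFinite hne X).1
      (isNCKimura_of_one (h Unit (U1 X) (oneF C (U1 X)) (oneF_compF _)))
  · intro h I _ _ Y p hp
    exact summand hne (fun i => h (Y i)) hp

end Pool.Agent.Results.MP_6e5bed_ag.GeometricOrigin
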