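import Pool.Agent.Q73.NF.Max

/-!
# Kimura-finiteness of dg categories whose realisation is a factor of that of a finite one

`C` is a `ℚ`-linear, idempotent complete, rigid symmetric monoidal category with `End(𝟙) = ℚ`
(`UnitQ`) and with a symmetric monoidal additive functor `R` to finite dimensional super vector
spaces over a field `K` (`SuperRealisation`). The example of the problem: the category
`NChow(k)_ℚ` of noncommutative Chow motives of all smooth proper dg categories over `k`, with
periodic cyclic homology in characteristic zero, and topological periodic cyclic homology with `p`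
inverted over a perfect field of characteristic `p`.

Let `N` be Kimura-finite and let `M` be an arbitrary object with `RealFactor R M N`: there are
morphisms `a : M ⟶ N`, `b : N ⟶ M` such that `a ≫ b` acts as the identity on the realisation of `M`.

(1) `M` is the direct sum of a direct summand `M'` of `N` and of an object `P` with zero realisation.
    `M'` is the largest Kimura-finite summand of `M` and `P` is its largest summand with zero
    realisation, and the decomposition is unique up to isomorphism.
(2) Equivalent: `M` is Kimura-finite; `M` is a direct summand of `N`; all `a`, `b` as above are a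
    split monomorphism and a split epimorphism; no direct summand of `M` except zero has zero
    realisation; all endomorphisms of `M` with zero realisation are nilpotent.
(3) If the realisation is faithful on `End N` then `M` is Kimura-finite if and only if it is faithful
    on `End M`.
(4) Let `A`, `B` be objects with nonzero realisations such that `RealFactor R (A ⊗ B) N`. If no direct
    summand of `A ⊗ B` except zero has zero realisation then `A` and `B` are Kimura-finite. The same
    for `A` and the tensor powers `A ^ ⊗ n`, `n ≥ 1`.

Steps of the proof: the endomorphisms of `N` with zero realisation are nilpotent, so `b ≫ a`, which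
is idempotent modulo nilpotent elements, has a partial inverse `h` with `h (b ≫ a) h = h`, and
`a ≫ h ≫ b` is an idempotent of `M` whose image is a summand of `N` and which acts as the identity on
the realisation. (4) uses the descent of Kimura-finiteness along tensor products of
`Pool.Agent.Q263.KT`.
-/

set_option autoImplicit false

open CategoryTheory Limits MonoidalCategory

namespace Pool.Agent.Results.MP_6e5bed_ag.NoncommutativeFactors

open Pool.Agent.Y112.SR Pool.Agent.Y112.KD Pool.Agent.Q263.KT Pool.Agent.Q73.NF

universe v u w

/-- Kimura-finiteness of objects whose realisation is a factor of that of a Kimura-finite object. -/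
theorem result {C : Type u} [Category.{v} C] [Preadditive C] [Linear ℚ C] [MonoidalCategory C]
    [MonoidalPreadditive C] [MonoidalLinear ℚ C] [SymmetricCategory C] [RightRigidCategory C]
    [IsIdempotentComplete C] (hU : UnitQ C) {K : Type w} [Field K] (R : SuperRealisation C K)
    (N : C) (hN : IsKimura N) :
    (∀ M : C, RealFactor R M N →
      (∃ M' P : C, DirectSum M M' P ∧ Summand M' N ∧ IsKimura M' ∧ IsZero (R.H.obj P) ∧
        (∀ T : C, Summand T M → IsKimura T → Summand T M') ∧
        (∀ Q : C, Summand Q M → IsZero (R.H.obj Q) → Summand Q P) ∧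
        ∀ M'' P' : C, DirectSum M M'' P' → IsKimura M'' → IsZero (R.H.obj P') →
          Nonempty (M' ≅ M'') ∧ Nonempty (P ≅ P')) ∧
      [IsKimura M, Summand M N,
        ∀ (a : M ⟶ N) (b : N ⟶ M), R.H.map (a ≫ b) = 𝟙 (R.H.obj M) →
          IsSplitMono a ∧ IsSplitEpi b,
        PhantomFree R M, NilKernel R M].TFAE ∧
      (FaithfulOn R N → (IsKimura M ↔ FaithfulOn R M))) ∧
    (∀ A B : C, ¬ IsZero (R.H.obj A) → ¬ IsZero (R.H.obj B) → RealFactor R (A ⊗ B) N →
      PhantomFree R (A ⊗ B) → IsKimura A ∧ IsKimura B) ∧
    (∀ (A : C) (n : ℕ), 1 ≤ n → RealFactor R (tp A n) N → PhantomFree R (tp A n) →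
      IsKimura A) := by
  have hn : NilKernel R N := nilKernel_of_isKimura hU hN
  refine ⟨fun M hM => ⟨?_, ?_, ?_⟩, ?_, ?_⟩
  · obtain ⟨M', P, hD, hS, hP⟩ := exists_core hn hM
    have hM' : NilKernel R M' := nilKernel_of_summand hS hn
    obtain ⟨i, r, hir⟩ := id hS
    exact ⟨M', P, hD, hS, isKimura_of_retract R hU i r hir hN, hP,
      fun T hT hk => summand_of_nil hD hP hT (nilKernel_of_isKimura hU hk),
      fun Q hQ hz => summand_of_phantom hD hM' hQ hz,
      fun M'' P' hD' hk hP' => unique_parts hD hD' hM' (nilKernel_of_isKimura hU hk) hP hP'⟩
  · have hT := tfae_kimura (R := R) hU hN hM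
    tfae_have 1 ↔ 2 := hT.out 0 1
    tfae_have 1 ↔ 3 := hT.out 0 4
    tfae_have 1 ↔ 4 := hT.out 0 2
    tfae_have 1 ↔ 5 := hT.out 0 3
    tfae_finish
  · intro hf
    have hT := tfae_kimura (R := R) hU hN hM
    refine ⟨fun h => faithfulOn_of_summand ((hT.out 0 1).1 h) hf, fun h => (hT.out 3 0).1 ?_⟩
    intro f hf'
    exact ⟨1, by rw [pow_one]; exact h f hf'⟩
  · intro A B hA hB hR hP
    have hk : IsKimura (A ⊗ B) := ((tfae_kimura (R := R) hU hN hR).out 2 0).1 hP
    exact ⟨isKimura_of_tensor R hU hB (Or.inl hA) hk,
      isKimura_of_tensor R hU hA (Or.inl hB)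
        (isKimura_of_retract R hU (β_ B A).hom (β_ B A).inv (by simp) hk)⟩
  · intro A n hn' hR hP
    exact isKimura_of_tp R hU hn' (((tfae_kimura (R := R) hU hN hR).out 2 0).1 hP)

end Pool.Agent.Results.MP_6e5bed_ag.NoncommutativeFactors
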