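import Pool.Agent.Q263.KT.Powers

/-!
# Kimura-finiteness descends along tensor products of arbitrary smooth proper dg categories

`C` is a `ℚ`-linear, idempotent complete, rigid symmetric monoidal category with `End(𝟙) = ℚ`
(`UnitQ`) and with a symmetric monoidal additive functor `R` to finite dimensional super vector spaces
over a field `K` (`SuperRealisation`). The example of the problem: the category `NChow(k)_ℚ` of
noncommutative Chow motives of all smooth proper dg categories over `k`; the dual of `U(𝒜)` is
`U(𝒜^op)`, and `R` is periodic cyclic homology if `k` has characteristic zero, and topological periodic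
cyclic homology with `p` inverted if `k` is a perfect field of characteristic `p`.

`IsKimura X`: `X = E ⊕ O`, some exterior power of `E` is zero and some symmetric power of `O` is zero.

Theorem.
(1) If `M ⊗ N` is Kimura-finite and the realisations of `M` and `N` are not zero then `M` and `N` are
    Kimura-finite.
(2) If `M ⊗ N` is Kimura-finite and the projector to the even part of the realisation of `N` is
    algebraic, and this realisation is not zero, then `M` is Kimura-finite.
(3) If a tensor power `M ^ ⊗ n`, `n ≥ 1`, is Kimura-finite then `M` is.
(4) If `M ⊗ M^*` is Kimura-finite then `M` is.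

In particular, for smooth proper dg categories `𝒜` and `ℬ` with nonzero (topological) periodic cyclic
homology: if `U(𝒜 ⊗ ℬ)` is Kimura-finite then so are `U(𝒜)` and `U(ℬ)` (the converse is a known
theorem of Kimura); and for all smooth proper `𝒜`, if `U(𝒜 ⊗ 𝒜^op)` or `U(𝒜 ⊗ ⋯ ⊗ 𝒜)` is
Kimura-finite then so is `U(𝒜)`.

Steps of the proof: an even (odd) object has an even (odd) realisation, so the even projectors of
`M ⊗ N`, and (by partial traces) of `M` and `N` are algebraic. Let `g` be an endomorphism of `N` with
realisation the parity involution. If `f` is an endomorphism of `M` with zero realisation then `f ⊗ g`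
is nilpotent, and the partial traces of its odd powers show that `f` is nilpotent. So `M` and `N`
split into parts with even and odd realisations. The tensor product of two such parts is a retract
of `M ⊗ N` with a pure realisation, hence a retract of the even or of the odd part of `M ⊗ N`. If
`A ⊗ B` is killed by an exterior (symmetric) power then the tensor product of the (anti)symmetrizers of
`A` and `B` vanishes, and the trace of the one of `B` is not zero; so the one of `A` vanishes.
-/

set_option autoImplicit false

open CategoryTheory Limits MonoidalCategory

namespace Pool.Agent.Results.MP_6e5bed_ag.TensorDescent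

open Pool.Agent.Y112.SR Pool.Agent.Y112.KD Pool.Agent.Q263.KT

universe v u w

/-- Kimura-finiteness descends along tensor products. -/
theorem result {C : Type u} [Category.{v} C] [Preadditive C] [Linear ℚ C] [MonoidalCategory C]
    [MonoidalPreadditive C] [MonoidalLinear ℚ C] [SymmetricCategory C] [RightRigidCategory C]
    [IsIdempotentComplete C] (hU : UnitQ C) {K : Type w} [Field K] (R : SuperRealisation C K) :
    (∀ M N : C, ¬ IsZero (R.H.obj M) → ¬ IsZero (R.H.obj N) → IsKimura (M ⊗ N) →
      IsKimura M ∧ IsKimura N) ∧
    (∀ M N : C, ¬ IsZero (R.H.obj N) → R.CPlus N → IsKimura (M ⊗ N) → IsKimura M) ∧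
    (∀ (M : C) (n : ℕ), 1 ≤ n → IsKimura (tp M n) → IsKimura M) ∧
    (∀ M : C, IsKimura (M ⊗ Mᘁ) → IsKimura M) := by
  refine ⟨fun M N hM hN h => ⟨isKimura_of_tensor R hU hN (Or.inl hM) h, ?_⟩,
    fun M N hN hC h => isKimura_of_tensor R hU hN (Or.inr hC) h,
    fun M n hn h => isKimura_of_tp R hU hn h, fun M h => isKimura_of_dual R hU h⟩
  exact isKimura_of_tensor R hU hM (Or.inl hN)
    (isKimura_of_retract R hU (β_ N M).hom (β_ N M).inv (by simp) h)

end Pool.Agent.Results.MP_6e5bed_ag.TensorDescent
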